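import Pool.Agent.H69.RC.CI

/-!
# Hecke L-functions of ray class characters: the Gauss sums vanish off the primitive elements (CV)
-/

set_option autoImplicit false

open NumberField Set Filter Complex
open scoped nonZeroDivisors

namespace Pool.Agent.H50.RC

open Pool.Agent.H28.RC Pool.Agent.H25.HK Pool.Agent.H25 Pool.Agent.H69.RC

section
variable {K : Type} [Field K] [NumberField K]

theorem fsmul {M : FI K} (a : 𝓞 K) {x : K} (hx : x ∈ M) : (a : K) * x ∈ M := by
  have := (M : Submodule (𝓞 K) K).smul_mem a hx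
  rwa [Algebra.smul_def] at this

/-- the products of `(a - 1)` with the elements of `P D` are in `f D` -/
theorem mul_mem_fD {P f : Ideal (𝓞 K)} {a : 𝓞 K} (ha : ∀ x ∈ P, (a - 1) * x ∈ f) {D : FI K}
    {y : K} (hy : y ∈ (P : FI K) * D) : ((a : K) - 1) * y ∈ (f : FI K) * D := by
  refine FractionalIdeal.mul_induction_on hy ?_ ?_
  · intro i hi j hj
    obtain ⟨x, hx, rfl⟩ := (FractionalIdeal.mem_coeIdeal _).1 hi
    have h1 : algebraMap (𝓞 K) K ((a - 1) * x) ∈ (f : FI K) :=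
      (FractionalIdeal.mem_coeIdeal _).2 ⟨_, ha x hx, rfl⟩
    have h2 : ((a : K) - 1) * (algebraMap (𝓞 K) K x * j) =
        algebraMap (𝓞 K) K ((a - 1) * x) * j := by
      rw [map_mul, map_sub, map_one]
      ring
    rw [h2]
    exact FractionalIdeal.mul_mem_mul h1 hj
  · intro u v hu hv
    rw [mul_add]
    exact fadd hu hv

/-- `f du (f M) = du M` -/
theorem f_du (hDU : T_DU) (χ : RCC K) {M : FI K} (hM : M ≠ 0) :
    (χ.f : FI K) * du' χ M = du K M := by
  unfold du'
  rw [(hDU K _ (fM_ne χ hM)).2.2.1, (hDU K M hM).2.2.1, mul_inv, ← mul_assoc, ← mul_assoc,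
    mul_inv_cancel₀ (f_ne χ), one_mul]

/-- multiplication by `a` is injective modulo `f M` if `a` is prime to `f` -/
theorem sub_mem_of_mul {f : Ideal (𝓞 K)} {a : 𝓞 K} (ha : Ideal.span {a} ⊔ f = ⊤) {M : FI K}
    {d : K} (hd : d ∈ M) (h : (a : K) * d ∈ (f : FI K) * M) : d ∈ (f : FI K) * M := by
  have h1 : (1 : 𝓞 K) ∈ Ideal.span {a} ⊔ f := by rw [ha]; exact Submodule.mem_top
  obtain ⟨u, hu, v, hv, huv⟩ := Submodule.mem_sup.1 h1
  obtain ⟨b, rfl⟩ := Ideal.mem_span_singleton'.1 hu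
  have h2 : d = (b : K) * ((a : K) * d) + (v : K) * d := by
    have h3 : (b : K) * (a : K) + (v : K) = 1 := by
      have h4 := congrArg (algebraMap (𝓞 K) K) huv
      rw [map_add, map_mul, map_one] at h4
      exact h4
    calc d = ((b : K) * (a : K) + (v : K)) * d := by rw [h3, one_mul]
      _ = _ := by ring
  rw [h2]
  refine fadd (fsmul b h) (FractionalIdeal.mul_mem_mul ?_ hd)
  exact (FractionalIdeal.mem_coeIdeal _).2 ⟨v, hv, rfl⟩

end

/-- (CV) -/
theorem pf_CV : T_ID → T_CM → T_CP → T_DU → T_CV := by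
  intro hID hCM hCP hDU K _ _ χ M X hM hX P hP hfP y hy
  obtain ⟨a, ha0, ha1, ha2, ha3⟩ := χ.prim P hP hfP
  have hfM := fM_ne χ hM
  have hPne : P ≠ ⊥ := fun h => χ.f_ne (le_bot_iff.1 (h ▸ hfP))
  have hD : du' χ M ≠ 0 := (hDU K _ hfM).1
  have hy' : y ∈ du' χ M := sub_mem' hID hPne hD hy
  -- the map
  have hch : ∀ r ∈ X, ∃ r', r' ∈ X ∧ (a : K) * r - r' ∈ (χ.f : FI K) * M := fun r hr =>
    (hX.2 ((a : K) * r) (fsmul a (hX.1 r hr))).exists
  choose! g hg hg' using hch
  have hinj : Set.InjOn g (X : Set K) := by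
    intro r hr s hs hrs
    have h1 := fsub (hg' r hr) (hg' s hs)
    have h2 : (a : K) * r - g r - ((a : K) * s - g s) = (a : K) * (r - s) := by
      rw [hrs]
      ring
    rw [h2] at h1
    have h3 := sub_mem_of_mul ha1 (fsub (hX.1 r hr) (hX.1 s hs)) h1
    refine (hX.2 r (hX.1 r hr)).unique ⟨hr, ?_⟩ ⟨hs, h3⟩
    rw [sub_self]
    exact fzero _
  have hsurj : Set.SurjOn g (X : Set K) (X : Set K) :=
    Finset.surjOn_of_injOn_of_card_le g (fun r hr => hg r hr) hinj le_rfl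
  have hsum : ft K X (cf χ M) y = ∑ r ∈ X, cf χ M (g r) * ex (g r * y) := by
    rw [ft_eq]
    exact (Finset.sum_nbij g hg hinj hsurj fun r _ => rfl).symm
  have hterm : ∀ r ∈ X, cf χ M (g r) * ex (g r * y) =
      (sg K χ.S (a : K) * χ.ψ (Ideal.span {a})) * (cf χ M r * ex (r * y)) := by
    intro r hr
    have h1 : cf χ M (g r) = sg K χ.S (a : K) * χ.ψ (Ideal.span {a}) * cf χ M r := by
      have h2 := hCP K χ M hM (g r) (hX.1 _ (hg r hr)) _ (hg' r hr)
      rw [add_sub_cancel] at h2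
      rw [← h2]
      exact (hCM K χ M hM).1 a ha0 r (hX.1 r hr)
    have h3 : ex (g r * y) = ex (r * y) := by
      have h4 := ex_add hfM (g r) (hg' r hr) hy'
      rw [add_sub_cancel] at h4
      have h5 : ((a : K) - 1) * y ∈ du K M := by
        rw [← f_du hDU χ hM]
        exact mul_mem_fD ha2 hy
      have h6 := ex_add (L := du K M) (hDU K M hM).1 (r := y) (l := ((a : K) - 1) * y) (y := r)
        h5 (by rw [(hDU K M hM).2.1]; exact hX.1 r hr)
      have h7 : (y + ((a : K) - 1) * y) * r = (a : K) * r * y := by ring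
      rw [h7] at h6
      rw [← h4, h6, mul_comm]
    rw [h1, h3]
    ring
  have hfin : ft K X (cf χ M) y =
      (sg K χ.S (a : K) * χ.ψ (Ideal.span {a})) * ft K X (cf χ M) y := by
    conv_lhs => rw [hsum, Finset.sum_congr rfl hterm, ← Finset.mul_sum]
    rfl
  have hne : sg K χ.S (a : K) * χ.ψ (Ideal.span {a}) ≠ 1 := by
    intro h
    apply ha3
    have h1 := sg_sq χ.S (a : K)
    calc χ.ψ (Ideal.span {a}) = (sg K χ.S (a : K) * sg K χ.S (a : K)) * χ.ψ (Ideal.span {a}) := by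
          rw [h1, one_mul]
      _ = sg K χ.S (a : K) * (sg K χ.S (a : K) * χ.ψ (Ideal.span {a})) := by ring
      _ = sg K χ.S (a : K) := by rw [h, mul_one]
  have h9 : (1 - sg K χ.S (a : K) * χ.ψ (Ideal.span {a})) * ft K X (cf χ M) y = 0 := by
    rw [sub_mul, one_mul, ← hfin, sub_self]
  exact (mul_eq_zero.1 h9).resolve_left (sub_ne_zero.2 (Ne.symm hne))

end Pool.Agent.H50.RC
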